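import Pool.Agent.Work.MP_8f8f86_mp.Final

/-!
# MP_8f8f86_mp: Fermi-Amaldi TFW theory does not bind one extra electron to hydrogen

For the atom with nuclear charge `z = 1` the Fermi-Amaldi TFW energies satisfy `E(1) < E(N)` for
all `N ≥ 2`.  Hence the inequality `E(z+1) < E(z)` fails already for `z = 1`.
All definitions are in `Pool/Agent/Work/MP_8f8f86_mp/Defs.lean` and follow the problem file.
-/

namespace Pool.Agent.Results.MP_8f8f86_mp.NotDecreasing

open Pool.Agent.Work.MP_8f8f86_mp

/-- For nuclear charge `1`, `E(1) < E(N)` for every `N ≥ 2`; in particular it is not true that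
`E(z+1) < E(z)` for every integer `z ≥ 1`. -/
theorem result :
    (∀ N : ℕ, 2 ≤ N → groundEnergy 1 1 < groundEnergy 1 N) ∧
      ¬ ∀ z : ℕ, 1 ≤ z → groundEnergy z (z + 1) < groundEnergy z z :=
  main

end Pool.Agent.Results.MP_8f8f86_mp.NotDecreasing
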